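import Mathlib
import Pool.Agent.TH364.SG.Z9

set_option autoImplicit false

/-!
# Grids in q-concave lattices: the conjectured distortion up to the square root of the logarithm
-/

namespace Pool.Agent.Results.MP_a656fc_an.LatticeGridBound



universe u v

/-- The grid `[m]_∞^n = {0, 1, ..., m}^n`. Its metric is the restriction of the metric of
`Fin n → ℕ`, that is `dist x y = max_j |x_j - y_j|`. -/
abbrev Grid (m n : ℕ) : Type := {x : Fin n → ℕ // ∀ j, x j ≤ m}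

/-- `X` embeds into `Y` with distortion `D`. -/
def EmbedsWith (X Y : Type*) [PseudoMetricSpace X] [PseudoMetricSpace Y] (D : ℝ) : Prop :=
  ∃ (f : X → Y) (lam : ℝ), 0 < lam ∧
    ∀ x y : X, lam * dist x y ≤ dist (f x) (f y) ∧ dist (f x) (f y) ≤ D * lam * dist x y

/-- `Y` is locally a `q`-concave lattice with constant `K`: for every finite set `s` of vectors and
every `δ > 0` there is a linear map `T : ℝ^d → Y` such that
* `‖T a‖ ≤ ‖T b‖` whenever `|a_i| ≤ |b_i|` for every `i`,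
* `∑_j ‖T a_j‖^q ≤ K^q ‖T (∑_j |a_j|^q)^(1/q)‖^q` for every finite sequence `a_1, …, a_k` in `ℝ^d`,
  the `q`-th powers and the root being taken coordinatewise,
* every vector of `s` is within `δ` of the range of `T`. -/
def LocallyConcaveLattice (Y : Type u) [NormedAddCommGroup Y] [NormedSpace ℝ Y] (q K : ℝ) : Prop :=
  ∀ (s : Finset Y) (δ : ℝ), 0 < δ → ∃ (d : ℕ) (T : (Fin d → ℝ) →ₗ[ℝ] Y),
    (∀ a b : Fin d → ℝ, (∀ i, |a i| ≤ |b i|) → ‖T a‖ ≤ ‖T b‖) ∧
    (∀ (k : ℕ) (a : Fin k → Fin d → ℝ), ∑ j, ‖T (a j)‖ ^ q ≤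
      K ^ q * ‖T (fun i => (∑ j, |a j i| ^ q) ^ (1 / q))‖ ^ q) ∧
    ∀ y ∈ s, ∃ c : Fin d → ℝ, ‖y - T c‖ ≤ δ

/-- Let `q ≥ 2`, `K ≥ 1`, `n ≥ 1` and `m ≥ n^(1/q)` (for instance `m = ⌈n^(1/q)⌉`). Every embedding
of the grid `[m]_∞^n` into a real normed space that is locally a `q`-concave lattice with constant
`K` has distortion at least `n^(1/q) / (8000000 K (log (n+1))^(1/2))`. -/
theorem result (Y : Type u) [NormedAddCommGroup Y] [NormedSpace ℝ Y] (q K : ℝ) (hq : 2 ≤ q)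
    (hK : 1 ≤ K) (hY : LocallyConcaveLattice Y q K) (n m : ℕ) (hn : 1 ≤ n)
    (hm : (n : ℝ) ^ (1 / q) ≤ m) (D : ℝ) (hD : EmbedsWith (Grid m n) Y D) :
    (n : ℝ) ^ (1 / q) / (8000000 * K * Real.sqrt (Real.log (n + 1))) ≤ D := by
  obtain ⟨f, lam, hlam, hf⟩ := hD
  have h := TH364.SG.lat_grid n m hn hq hK hY hm f hlam hf
  have hn' : (1 : ℝ) ≤ n := by exact_mod_cast hn
  have h1 : 0 < Real.sqrt (Real.log ((n : ℝ) + 1)) :=
    Real.sqrt_pos.2 (Real.log_pos (by linarith))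
  rw [div_le_iff₀ (by positivity)]
  linarith

end Pool.Agent.Results.MP_a656fc_an.LatticeGridBound
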