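import Mathlib
import Pool.Agent.TH364.SG.Grid2
import Pool.Agent.Results.MP_fd02da_an.SchattenIsometries

set_option autoImplicit false

/-!
# Grids in the trace class: the conjectured distortion up to the square root of the logarithm
-/

namespace Pool.Agent.Results.MP_a656fc_an.TraceClassGridBound

open Pool.Agent.Results.MP_fd02da_an.SchattenIsometries

universe u

/-- The grid `[m]_∞^n = {0, 1, ..., m}^n`. Its metric is the restriction of the metric of
`Fin n → ℕ`, that is `dist x y = max_j |x_j - y_j|`. -/
abbrev Grid (m n : ℕ) : Type := {x : Fin n → ℕ // ∀ j, x j ≤ m}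

/-- `X` embeds into `Y` with distortion `D`. -/
def EmbedsWith (X Y : Type*) [PseudoMetricSpace X] [PseudoMetricSpace Y] (D : ℝ) : Prop :=
  ∃ (f : X → Y) (lam : ℝ), 0 < lam ∧
    ∀ x y : X, lam * dist x y ≤ dist (f x) (f y) ∧ dist (f x) (f y) ≤ D * lam * dist x y

/-- The trace class `S_1(H)`: the compact operators `T` on `H` with `tr (T* T)^(1/2) < ∞`, normed by
`tr (T* T)^(1/2)`. -/
noncomputable abbrev TraceClass (H : Type u) [NormedAddCommGroup H] [InnerProductSpace ℂ H]
    [CompleteSpace H] : Type u := SchattenClass (1 : ℝ) H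

/-- For every complex Hilbert space `H` and all `n ≥ 2`, `m ≥ 1`, every embedding of `[m]_∞^n` into
the trace class of `H` has distortion at least `min(m, √(n / log n)) / 31000`. With `m = ⌈√n⌉` and
`H = ℓ_2` this is the bound asked for, up to the factor `√(log n)`. -/
theorem result {H : Type u} [NormedAddCommGroup H] [InnerProductSpace ℂ H] [CompleteSpace H]
    (n m : ℕ) (hn : 2 ≤ n) (hm : 1 ≤ m) (D : ℝ) (hD : EmbedsWith (Grid m n) (TraceClass H) D) :
    min (m : ℝ) (Real.sqrt (n / Real.log n)) / 31000 ≤ D := by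
  obtain ⟨f, lam, hlam, hf⟩ := hD
  have h := TH364.SG.main2 n m hn hm f hlam hf
  rw [div_le_iff₀ (by norm_num)]
  linarith

end Pool.Agent.Results.MP_a656fc_an.TraceClassGridBound
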